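import Pool.Agent.W2helper3.BQ.MoA
import Pool.Agent.W2helper97.BQ.PF
import Pool.Agent.W2helper3.BQ.Stm3

/-!
# PIECE KX of project BQ3: explicit partial fractions and integral operators of the modes
-/

set_option autoImplicit false

open MeasureTheory Set Filter Topology
open scoped SchwartzMap ENNReal ContDiff BigOperators

open Pool.Agent.W2helper3.BQ
open Pool.Agent.W2helper97.BQ (cc pf_id)

namespace Pool.Agent.W2helper47.BQ

/-- a compactly supported function vanishes far away -/
theorem far (η : ℝ → ℂ) (hη : HasCompactSupport η) : ∃ R : ℝ, ∀ v : ℝ, R ≤ |v| → η v = 0 := by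
  obtain ⟨r, hr⟩ := hη.isCompact.isBounded.subset_closedBall (0 : ℝ)
  refine ⟨|r| + 1, fun v hv => ?_⟩
  by_contra hcon
  have h1 : v ∈ tsupport η := subset_tsupport _ hcon
  have h2 := hr h1
  rw [Metric.mem_closedBall, dist_zero_right, Real.norm_eq_abs] at h2
  have h4 := le_abs_self r
  linarith

theorem cs_right (g : ℝ → ℂ) (hg : HasCompactSupport g) (u : ℝ) :
    HasCompactSupport fun v => g (u + v) := hg.comp_homeomorph (Homeomorph.addLeft u)

theorem cs_left (g : ℝ → ℂ) (hg : HasCompactSupport g) (u : ℝ) :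
    HasCompactSupport fun v => g (u - v) := hg.comp_homeomorph (Homeomorph.subLeft u)

theorem int_right (g : ℝ → ℂ) (hg : HasCompactSupport g) (hc : Continuous g) (w : ℝ → ℝ)
    (hw : Continuous w) (u : ℝ) : Integrable fun v => ((w v : ℝ) : ℂ) * g (u + v) := by
  refine Continuous.integrable_of_hasCompactSupport ?_ ?_
  · exact (Complex.continuous_ofReal.comp hw).mul (hc.comp (by fun_prop))
  · exact (cs_right g hg u).mul_left (f := fun v => ((w v : ℝ) : ℂ))

theorem int_left (g : ℝ → ℂ) (hg : HasCompactSupport g) (hc : Continuous g) (w : ℝ → ℝ)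
    (hw : Continuous w) (u : ℝ) : Integrable fun v => ((w v : ℝ) : ℂ) * g (u - v) := by
  refine Continuous.integrable_of_hasCompactSupport ?_ ?_
  · exact (Complex.continuous_ofReal.comp hw).mul (hc.comp (by fun_prop))
  · exact (cs_left g hg u).mul_left (f := fun v => ((w v : ℝ) : ℂ))

theorem rep_right (α : ℝ) (η g : ℝ → ℂ) (hη : Differentiable ℝ η) (hηs : HasCompactSupport η)
    (hg : HasCompactSupport g) (hc : Continuous g) (heq : ∀ u, deriv η u - α * η u = g u)
    (u : ℝ) : η u = -∫ v in Ioi (0 : ℝ), ((Real.exp (-(α * v)) : ℝ) : ℂ) * g (u + v) := by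
  obtain ⟨R, hR⟩ := far η hηs
  have hder : ∀ v, HasDerivAt (fun v : ℝ => ((Real.exp (-(α * v)) : ℝ) : ℂ) * η (u + v))
      (((Real.exp (-(α * v)) : ℝ) : ℂ) * g (u + v)) v := by
    intro v
    have h1 : HasDerivAt (fun v : ℝ => ((Real.exp (-(α * v)) : ℝ) : ℂ))
        (((Real.exp (-(α * v)) * (-α) : ℝ)) : ℂ) v := by
      apply HasDerivAt.ofReal_comp
      have := (((hasDerivAt_id v).const_mul α).neg).exp
      simpa using this
    have h2 : HasDerivAt (fun v : ℝ => η (u + v)) (deriv η (u + v)) v := by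
      have h3 := (hη (u + v)).hasDerivAt
      exact h3.comp_const_add u v
    refine (h1.mul h2).congr_deriv ?_
    rw [← heq]
    push_cast
    ring
  have hlim : Tendsto (fun v : ℝ => ((Real.exp (-(α * v)) : ℝ) : ℂ) * η (u + v)) atTop (𝓝 0) := by
    refine tendsto_const_nhds.congr' ?_
    filter_upwards [eventually_ge_atTop (R + |u|)] with v hv
    rw [hR (u + v), mul_zero]
    have h1 := neg_abs_le u
    have h2 := le_abs_self (u + v)
    linarith
  have h := integral_Ioi_of_hasDerivAt_of_tendsto (a := (0 : ℝ))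
    (hder 0).continuousAt.continuousWithinAt (fun v _ => hder v)
    (int_right g hg hc (fun v => Real.exp (-(α * v))) (by fun_prop) u).integrableOn hlim
  rw [h]
  simp

theorem rep_left (α : ℝ) (η g : ℝ → ℂ) (hη : Differentiable ℝ η) (hηs : HasCompactSupport η)
    (hg : HasCompactSupport g) (hc : Continuous g) (heq : ∀ u, deriv η u - α * η u = g u)
    (u : ℝ) : η u = ∫ v in Ioi (0 : ℝ), ((Real.exp (α * v) : ℝ) : ℂ) * g (u - v) := by
  obtain ⟨R, hR⟩ := far η hηs
  have hder : ∀ v, HasDerivAt (fun v : ℝ => -(((Real.exp (α * v) : ℝ) : ℂ) * η (u - v)))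
      (((Real.exp (α * v) : ℝ) : ℂ) * g (u - v)) v := by
    intro v
    have h1 : HasDerivAt (fun v : ℝ => ((Real.exp (α * v) : ℝ) : ℂ))
        (((Real.exp (α * v) * α : ℝ)) : ℂ) v := by
      apply HasDerivAt.ofReal_comp
      have := ((hasDerivAt_id v).const_mul α).exp
      simpa using this
    have h2 : HasDerivAt (fun v : ℝ => η (u - v)) (-deriv η (u - v)) v := by
      have h3 := (hη (u - v)).hasDerivAt
      exact h3.comp_const_sub u v
    refine (h1.mul h2).neg.congr_deriv ?_
    rw [← heq]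
    push_cast
    ring
  have hlim : Tendsto (fun v : ℝ => -(((Real.exp (α * v) : ℝ) : ℂ) * η (u - v))) atTop
      (𝓝 0) := by
    refine tendsto_const_nhds.congr' ?_
    filter_upwards [eventually_ge_atTop (R + |u|)] with v hv
    rw [hR (u - v), mul_zero, neg_zero]
    have h1 := le_abs_self u
    have h2 := neg_abs_le (u - v)
    linarith
  have h := integral_Ioi_of_hasDerivAt_of_tendsto (a := (0 : ℝ))
    (hder 0).continuousAt.continuousWithinAt (fun v _ => hder v)
    (int_left g hg hc (fun v => Real.exp (α * v)) (by fun_prop) u).integrableOn hlim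
  rw [h]
  simp

/-! ### the coefficients -/

theorem den (n i : ℕ) (hi : i < n) : ∏ l ∈ (Finset.range n).erase i, ((i : ℝ) - l) =
    (-1) ^ (n - 1 - i) * (i.factorial : ℝ) * ((n - 1 - i).factorial : ℝ) := by
  classical
  obtain ⟨m, rfl⟩ : ∃ m, n = i + 1 + m := ⟨n - (i + 1), by omega⟩
  have e : (Finset.range (i + 1 + m)).erase i =
      Finset.range i ∪ (Finset.range m).image (fun j => i + 1 + j) := by
    ext x
    simp only [Finset.mem_erase, Finset.mem_range, Finset.mem_union, Finset.mem_image]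
    constructor
    · rintro ⟨h1, h2⟩
      rcases lt_or_gt_of_ne h1 with h | h
      · exact Or.inl h
      · exact Or.inr ⟨x - (i + 1), by omega, by omega⟩
    · rintro (h | ⟨j, h1, h2⟩)
      · omega
      · omega
  have hd : Disjoint (Finset.range i) ((Finset.range m).image (fun j => i + 1 + j)) := by
    rw [Finset.disjoint_left]
    intro x hx hx'
    simp only [Finset.mem_range, Finset.mem_image] at hx hx'
    obtain ⟨j, _, h2⟩ := hx'
    omega
  rw [e, Finset.prod_union hd, Finset.prod_image (by intro a _ b _ h; simpa using h)]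
  have e1 : ∏ x ∈ Finset.range i, ((i : ℝ) - x) = (i.factorial : ℝ) := by
    rw [← Finset.prod_range_reflect, ← Finset.prod_range_add_one_eq_factorial]
    push_cast
    refine Finset.prod_congr rfl fun j hj => ?_
    have := Finset.mem_range.mp hj
    rw [Nat.sub_sub, Nat.cast_sub (by omega)]
    push_cast
    ring
  have e2 : ∏ x ∈ Finset.range m, ((i : ℝ) - ((i + 1 + x : ℕ) : ℝ)) =
      (-1) ^ m * (m.factorial : ℝ) := by
    rw [← Finset.prod_range_add_one_eq_factorial]
    push_cast
    have h2 : ((-1 : ℝ)) ^ m = ∏ _i ∈ Finset.range m, (-1 : ℝ) := by simp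
    rw [h2, ← Finset.prod_mul_distrib]
    refine Finset.prod_congr rfl fun j _ => ?_
    ring
  rw [e1, e2]
  have e3 : i + 1 + m - 1 - i = m := by omega
  rw [e3]
  ring

theorem num (n m : ℕ) : ∏ l ∈ Finset.range n, (((n + m : ℕ) : ℝ) - l) =
    (n.factorial : ℝ) * ((n + m).choose n : ℝ) := by
  have h : ((n + m).descFactorial n : ℝ) = ∏ l ∈ Finset.range n, (((n + m : ℕ) : ℝ) - l) := by
    rw [Nat.descFactorial_eq_prod_range]
    push_cast
    refine Finset.prod_congr rfl fun l hl => ?_
    have := Finset.mem_range.mp hl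
    rw [Nat.cast_sub (by omega)]
    push_cast
    ring
  rw [← h, Nat.descFactorial_eq_factorial_mul_choose]
  push_cast
  ring

theorem fac (n i : ℕ) (hi : i < n) : (n.factorial : ℝ) /
    ((i.factorial : ℝ) * ((n - 1 - i).factorial : ℝ)) = n * ((n - 1).choose i : ℝ) := by
  obtain ⟨m, rfl⟩ : ∃ m, n = m + 1 := ⟨n - 1, by omega⟩
  have h := Nat.choose_mul_factorial_mul_factorial (show i ≤ m by omega)
  have h' : ((m.choose i : ℕ) : ℝ) * (i.factorial : ℝ) * ((m - i).factorial : ℝ) =
      (m.factorial : ℝ) := by exact_mod_cast h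
  have e : m + 1 - 1 - i = m - i := by omega
  have e' : m + 1 - 1 = m := by omega
  rw [e, e', div_eq_iff (by positivity), Nat.factorial_succ]
  push_cast
  rw [← h']
  ring

theorem cc_pos (n l i : ℕ) (hi : i < n) : cc n (2 * n + l) i =
    n * ((-1) ^ (n - 1 - i) * ((n - 1).choose i : ℝ) * ((l + n + i).choose n : ℝ)) := by
  unfold cc
  rw [den n i hi]
  have e : ∏ j ∈ Finset.range n, (((2 * n + l : ℤ) : ℝ) - n + i - j) =
      (n.factorial : ℝ) * ((n + (l + i)).choose n : ℝ) := by
    rw [← num n (l + i)]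
    refine Finset.prod_congr rfl fun j _ => ?_
    push_cast
    ring
  rw [e, show l + n + i = n + (l + i) by ring]
  have h := fac n i hi
  have hs : ((-1 : ℝ) ^ (n - 1 - i)) * (-1) ^ (n - 1 - i) = 1 := by
    rw [← mul_pow]
    simp
  have hs0 : ((-1 : ℝ) ^ (n - 1 - i)) ≠ 0 := pow_ne_zero _ (by norm_num)
  have hi0 : (i.factorial : ℝ) ≠ 0 := by positivity
  have hm0 : ((n - 1 - i).factorial : ℝ) ≠ 0 := by positivity
  rw [div_eq_iff (by positivity)] at h
  rw [div_eq_iff (by positivity)]
  rw [h]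
  linear_combination (-(n * ((n - 1).choose i : ℝ) * (i.factorial : ℝ) *
    ((n - 1 - i).factorial : ℝ) * ((n + (l + i)).choose n : ℝ))) * hs

theorem cc_neg (n l j : ℕ) (hj : j < n) : cc n (-(l : ℤ)) (n - 1 - j) =
    (-1) ^ n * (n * ((-1) ^ j * ((n - 1).choose j : ℝ) * ((l + n + j).choose n : ℝ))) := by
  unfold cc
  rw [den n (n - 1 - j) (by omega)]
  have e : ∏ m ∈ Finset.range n, (((-(l : ℤ) : ℤ) : ℝ) - n + ((n - 1 - j : ℕ) : ℝ) - m) =
      (-1) ^ n * ((n.factorial : ℝ) * ((n + (l + j)).choose n : ℝ)) := by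
    rw [← num n (l + j)]
    have h2 : ((-1 : ℝ)) ^ n = ∏ _i ∈ Finset.range n, (-1 : ℝ) := by simp
    rw [← Finset.prod_range_reflect (fun x : ℕ => (((n + (l + j) : ℕ) : ℝ) - x)), h2,
      ← Finset.prod_mul_distrib]
    refine Finset.prod_congr rfl fun m hm => ?_
    have := Finset.mem_range.mp hm
    rw [Nat.sub_sub, Nat.sub_sub, Nat.cast_sub (by omega), Nat.cast_sub (by omega)]
    push_cast
    ring
  have e1 : n - 1 - (n - 1 - j) = j := by omega
  rw [e, e1, show l + n + j = n + (l + j) by ring]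
  have h := fac n j hj
  have hs : ((-1 : ℝ) ^ j) * (-1) ^ j = 1 := by
    rw [← mul_pow]
    simp
  have hs0 : ((-1 : ℝ) ^ j) ≠ 0 := pow_ne_zero _ (by norm_num)
  have hi0 : (j.factorial : ℝ) ≠ 0 := by positivity
  have hm0 : ((n - 1 - j).factorial : ℝ) ≠ 0 := by positivity
  rw [div_eq_iff (by positivity)] at h
  rw [div_eq_iff (by positivity)]
  rw [h]
  linear_combination (-((-1) ^ n * n * ((n - 1).choose j : ℝ) * (j.factorial : ℝ) *
    ((n - 1 - j).factorial : ℝ) * ((n + (l + j)).choose n : ℝ))) * hs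

/-- KX -/
theorem p_KX : P_KX := by
  intro n hn p hp l hl ζ hζ u
  have hp0 : 0 < p := by linarith
  have key : ∀ k : ℤ, pol (PB p n k) ζ u = pol (PA p n k) ζ u +
      ∑ i ∈ Finset.range n, ((cc n k i : ℝ) : ℂ) * pol (PE p n k i) ζ u := by
    intro k
    rw [pf_id n hn k p, pol_add, pol_sum]
    simp only [pol_C_mul, SchwartzMap.add_apply, SchwartzMap.sum_apply, SchwartzMap.smul_apply,
      Complex.real_smul]
  have heq : ∀ (k : ℤ) (i : ℕ), i < n → ∀ v : ℝ,
      deriv (pol (PE p n k i) ζ) v - (al p n k i : ℝ) * pol (PE p n k i) ζ v =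
        pol (PA p n k) ζ v := by
    intro k i hi v
    rw [PA_eq p n k i hi, pol_fac]
    simp only [SchwartzMap.sub_apply, SchwartzMap.smul_apply, Complex.real_smul, DD_apply]
  have hdiff : ∀ (k : ℤ) (i : ℕ), Differentiable ℝ (pol (PE p n k i) ζ) := fun k i =>
    (pol (PE p n k i) ζ).differentiable
  have hcs : ∀ P : Polynomial ℝ, HasCompactSupport (pol P ζ) := fun P => cs_pol P hζ
  have hcont : ∀ P : Polynomial ℝ, Continuous (pol P ζ) := fun P => (pol P ζ).continuous
  constructor
  · have hk := key (2 * n + l)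
    rw [hk]
    congr 1
    have h1 : ∀ i ∈ Finset.range n, ((cc n (2 * n + l) i : ℝ) : ℂ) *
        pol (PE p n (2 * n + l) i) ζ u = ∫ v in Ioi (0 : ℝ), (((-1) ^ n * n *
          (Real.exp (-(v / p)) * ((-1) ^ i * ((n - 1).choose i : ℝ) *
            ((l + n + i).choose n : ℝ) * Real.exp (-(((l : ℝ) / 2 + i) * v)))) : ℝ) : ℂ) *
          pol (PA p n (2 * n + l)) ζ (u + v) := by
      intro i hi
      have hi' := Finset.mem_range.mp hi
      rw [rep_right (al p n (2 * n + l) i) _ _ (hdiff _ i) (hcs _) (hcs _) (hcont _)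
        (heq (2 * n + l) i hi') u, mul_neg, ← integral_const_mul, ← integral_neg]
      refine integral_congr_ae (Eventually.of_forall fun v => ?_)
      simp only
      rw [cc_pos n l i hi']
      have e1 : Real.exp (-(al p n (2 * n + l) i * v)) =
          Real.exp (-(v / p)) * Real.exp (-(((l : ℝ) / 2 + i) * v)) := by
        rw [← Real.exp_add]
        congr 1
        unfold al
        push_cast
        ring
      have e2 : ((-1 : ℝ) ^ (n - 1 - i)) = -((-1) ^ n * (-1) ^ i) := by
        obtain ⟨m, rfl⟩ : ∃ m, n = i + 1 + m := ⟨n - (i + 1), by omega⟩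
        rw [show i + 1 + m - 1 - i = m by omega, pow_add, pow_add]
        have : ((-1 : ℝ) ^ i) * (-1) ^ i = 1 := by
          rw [← mul_pow]
          simp
        linear_combination (-(-1 : ℝ) ^ m) * this
      rw [e1, e2]
      push_cast
      ring
    rw [Finset.sum_congr rfl h1, ← integral_finset_sum]
    · rw [← integral_const_mul]
      refine integral_congr_ae (Eventually.of_forall fun v => ?_)
      simp only
      unfold kap
      rw [← Finset.sum_mul, ← Complex.ofReal_sum, ← Finset.mul_sum, ← Finset.mul_sum]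
      push_cast
      ring
    · intro i _
      exact (int_right _ (hcs _) (hcont _) (fun v => ((-1) ^ n * n *
          (Real.exp (-(v / p)) * ((-1) ^ i * ((n - 1).choose i : ℝ) *
            ((l + n + i).choose n : ℝ) * Real.exp (-(((l : ℝ) / 2 + i) * v)))) : ℝ))
        (by fun_prop) u).integrableOn
  · have hk := key (-(l : ℤ))
    rw [hk]
    congr 1
    rw [← Finset.sum_range_reflect]
    have h1 : ∀ j ∈ Finset.range n, ((cc n (-(l : ℤ)) (n - 1 - j) : ℝ) : ℂ) *
        pol (PE p n (-(l : ℤ)) (n - 1 - j)) ζ u = ∫ v in Ioi (0 : ℝ), (((-1) ^ n * n *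
          (Real.exp (-((1 - 1 / p) * v)) * ((-1) ^ j * ((n - 1).choose j : ℝ) *
            ((l + n + j).choose n : ℝ) * Real.exp (-(((l : ℝ) / 2 + j) * v)))) : ℝ) : ℂ) *
          pol (PA p n (-(l : ℤ))) ζ (u - v) := by
      intro j hj
      have hj' := Finset.mem_range.mp hj
      rw [rep_left (al p n (-(l : ℤ)) (n - 1 - j)) _ _ (hdiff _ _) (hcs _) (hcs _) (hcont _)
        (heq (-(l : ℤ)) (n - 1 - j) (by omega)) u, ← integral_const_mul]
      refine integral_congr_ae (Eventually.of_forall fun v => ?_)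
      simp only
      rw [cc_neg n l j hj']
      have e1 : Real.exp (al p n (-(l : ℤ)) (n - 1 - j) * v) =
          Real.exp (-((1 - 1 / p) * v)) * Real.exp (-(((l : ℝ) / 2 + j) * v)) := by
        rw [← Real.exp_add]
        congr 1
        unfold al
        rw [Nat.sub_sub, Nat.cast_sub (by omega)]
        push_cast
        ring
      rw [e1]
      push_cast
      ring
    rw [Finset.sum_congr rfl h1, ← integral_finset_sum]
    · rw [← integral_const_mul]
      refine integral_congr_ae (Eventually.of_forall fun v => ?_)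
      simp only
      unfold kap
      rw [← Finset.sum_mul, ← Complex.ofReal_sum, ← Finset.mul_sum, ← Finset.mul_sum]
      push_cast
      ring
    · intro j _
      exact (int_left _ (hcs _) (hcont _) (fun v => ((-1) ^ n * n *
          (Real.exp (-((1 - 1 / p) * v)) * ((-1) ^ j * ((n - 1).choose j : ℝ) *
            ((l + n + j).choose n : ℝ) * Real.exp (-(((l : ℝ) / 2 + j) * v)))) : ℝ))
        (by fun_prop) u).integrableOn

end Pool.Agent.W2helper47.BQ
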